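import Mathlib
import Pool.Agent.H37.Matching

set_option autoImplicit false

namespace Pool.Agent.Results.MP_ebeb23_co.LargeGirth

open Filter Topology

/-- Let `d` be a positive integer and `G n` a sequence of finite `d`-regular bipartite (simple)
graphs whose numbers of perfect matchings satisfy
`log pm (G n) / v (G n) → (1/2) * log ((d-1)^(d-1) / d^(d-2))`.
Then for every `k` the number of cycles of length `k` in `G n`
(the number of subgraphs isomorphic to the cycle graph on `k` vertices, `3 ≤ k`)
is `o (v (G n))`: the sequence has essentially large girth. -/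
theorem result (d : ℕ) (hd : 1 ≤ d) (V : ℕ → Type) [∀ n, Fintype (V n)]
    (G : ∀ n, SimpleGraph (V n)) [∀ n, DecidableRel (G n).Adj]
    (hreg : ∀ n, (G n).IsRegularOfDegree d) (hbip : ∀ n, (G n).IsBipartite)
    (hpm : Tendsto
      (fun n => Real.log ({M : (G n).Subgraph | M.IsPerfectMatching}.ncard : ℝ) /
        (Fintype.card (V n) : ℝ)) atTop
      (𝓝 (1 / 2 * Real.log (((d : ℝ) - 1) ^ (d - 1) / (d : ℝ) ^ ((d : ℤ) - 2))))) :
    ∀ k : ℕ, 3 ≤ k →
      Tendsto (fun n => ((G n).copyCount (SimpleGraph.cycleGraph k) : ℝ) /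
        (Fintype.card (V n) : ℝ)) atTop (𝓝 0) := by
  classical
  intro k hk
  obtain ⟨ε, hε, hb⟩ := H37.graph_bound hd k hk
  have hlam : H37.lam d =
      1 / 2 * Real.log (((d : ℝ) - 1) ^ (d - 1) / (d : ℝ) ^ ((d : ℤ) - 2)) := rfl
  rw [← hlam] at hpm
  have hdiff : Tendsto (fun n => 1 / ε *
      |Real.log ({M : (G n).Subgraph | M.IsPerfectMatching}.ncard : ℝ) /
        (Fintype.card (V n) : ℝ) - H37.lam d|) atTop (𝓝 0) := by
    have h1 := ((hpm.sub_const (H37.lam d)).abs).const_mul (1 / ε)
    rw [sub_self, abs_zero, mul_zero] at h1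
    exact h1
  refine squeeze_zero (fun n => by positivity) (fun n => ?_) hdiff
  have hr : ∀ i, (Finset.univ.filter (fun j => (G n).Adj i j)).card = d := by
    intro i
    have h1 := hreg n i
    rw [← SimpleGraph.card_neighborFinset_eq_degree, SimpleGraph.neighborFinset_eq_filter] at h1
    rw [← h1]
  have h1 := hb (V n) (G n) (by intro i; convert hr i) (hbip n)
  by_cases hV : Fintype.card (V n) = 0
  · rw [hV]
    simp only [Nat.cast_zero, div_zero, zero_sub, abs_neg]
    positivity
  · have hVpos : (0 : ℝ) < Fintype.card (V n) := by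
      exact_mod_cast Nat.pos_of_ne_zero hV
    have h2 : ε * (((G n).copyCount (SimpleGraph.cycleGraph k) : ℝ) / (Fintype.card (V n) : ℝ)) ≤
        Real.log ({M : (G n).Subgraph | M.IsPerfectMatching}.ncard : ℝ) /
        (Fintype.card (V n) : ℝ) - H37.lam d := by
      rw [le_sub_iff_add_le, le_div_iff₀ hVpos]
      calc (ε * (((G n).copyCount (SimpleGraph.cycleGraph k) : ℝ) / (Fintype.card (V n) : ℝ)) +
          H37.lam d) * (Fintype.card (V n) : ℝ)
          = ε * ((G n).copyCount (SimpleGraph.cycleGraph k) : ℝ) +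
            (Fintype.card (V n) : ℝ) * H37.lam d := by field_simp
        _ ≤ _ := h1
    have h3 := h2.trans (le_abs_self _)
    calc ((G n).copyCount (SimpleGraph.cycleGraph k) : ℝ) / (Fintype.card (V n) : ℝ)
        = 1 / ε * (ε * (((G n).copyCount (SimpleGraph.cycleGraph k) : ℝ) /
          (Fintype.card (V n) : ℝ))) := by field_simp
      _ ≤ _ := mul_le_mul_of_nonneg_left h3 (by positivity)

end Pool.Agent.Results.MP_ebeb23_co.LargeGirth
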